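import Mathlib
import Pool.Agent.H19.HallN

set_option autoImplicit false

namespace Pool.Agent.Results.MP_6ba1da_al.Counterexample

universe u

open Pool.Agent.H19.WeakPara in
/-- A residually nilpotent group whose lower central factors are isomorphic to those of a free
group, with no faithful matrix representation over any commutative ring. -/
theorem result : ∃ (G : Type) (_ : Group G),
    (∃ ι : Type, ∀ i : ℕ, Nonempty (
      (⊤ : Subgroup G).lowerCentralSeries i ⧸
        ((⊤ : Subgroup G).lowerCentralSeries (i + 1)).subgroupOf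
          ((⊤ : Subgroup G).lowerCentralSeries i) ≃*
      (⊤ : Subgroup (FreeGroup ι)).lowerCentralSeries i ⧸
        ((⊤ : Subgroup (FreeGroup ι)).lowerCentralSeries (i + 1)).subgroupOf
          ((⊤ : Subgroup (FreeGroup ι)).lowerCentralSeries i))) ∧
    (⨅ i, (⊤ : Subgroup G).lowerCentralSeries i = ⊥) ∧
    ∀ (R : Type u) [CommRing R] (n : ℕ) (ρ : G →* GL (Fin n) R), ¬ Function.Injective ρ := by
  refine ⟨FreeGroup (ℕ × N) × N, inferInstance, ⟨ℕ × N, fun i => absorb i (N_free i)⟩, ?_,
    fun R _ n ρ => G_nonlinear R n ρ⟩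
  rw [eq_bot_iff]
  intro g hg
  rw [Subgroup.mem_iInf] at hg
  exact Prod.ext
    (free_resNil fun i => Pool.Agent.H19.Baum.lcs_map (MonoidHom.fst _ _) i (hg i))
    (N_resNil fun i => Pool.Agent.H19.Baum.lcs_map (MonoidHom.snd _ _) i (hg i))

end Pool.Agent.Results.MP_6ba1da_al.Counterexample
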